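import Mathlib

/-! Elementary estimates for powers and summation by parts. -/

namespace Pool.Agent.H663Z.Eta

open Finset Real

theorem mvt_aux (f f' : ℝ → ℝ) (x : ℝ) (hx : 0 < x) (h : ∀ y, 0 < y → HasDerivAt f (f' y) y) :
    ∃ c, x < c ∧ c < x + 1 ∧ f (x + 1) - f x = f' c := by
  obtain ⟨c, hc, e⟩ := exists_hasDerivAt_eq_slope f f' (a := x) (b := x + 1) (by linarith)
    (fun y hy => (h y (by linarith [hy.1])).continuousAt.continuousWithinAt)
    (fun y hy => h y (by linarith [hy.1]))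
  refine ⟨c, hc.1, hc.2, ?_⟩
  rw [e]; simp

theorem mvt1 (p x : ℝ) (hx : 0 < x) (hp : p ≤ 1) :
    |(x + 1) ^ p - x ^ p| ≤ |p| * x ^ (p - 1) := by
  obtain ⟨c, h1, -, e⟩ := mvt_aux (fun y => y ^ p) (fun y => p * y ^ (p - 1)) x hx
    (fun y hy => hasDerivAt_rpow_const (Or.inl hy.ne'))
  rw [e, abs_mul, abs_of_nonneg (rpow_nonneg (by linarith) _)]
  exact mul_le_mul_of_nonneg_left (rpow_le_rpow_of_nonpos hx h1.le (by linarith)) (abs_nonneg _)

theorem mvt2 (p x : ℝ) (hx : 0 < x) (hp : p ≤ 1) :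
    |x ^ p - 2 * (x + 1) ^ p + (x + 2) ^ p| ≤ |p| * |p - 1| * x ^ (p - 2) := by
  obtain ⟨c, h1, -, e⟩ := mvt_aux (fun y => (y + 1) ^ p - y ^ p)
    (fun y => p * ((y + 1) ^ (p - 1) - y ^ (p - 1))) x hx (fun y hy => by
      have a1 : HasDerivAt (fun y : ℝ => (y + 1) ^ p) (1 * p * (y + 1) ^ (p - 1)) y :=
        ((hasDerivAt_id y).add_const 1).rpow_const (Or.inl (by simp; linarith))
      have a2 : HasDerivAt (fun y : ℝ => y ^ p) (p * y ^ (p - 1)) y :=
        hasDerivAt_rpow_const (Or.inl hy.ne')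
      exact (a1.sub a2).congr_deriv (by ring))
  have e' : x ^ p - 2 * (x + 1) ^ p + (x + 2) ^ p = p * ((c + 1) ^ (p - 1) - c ^ (p - 1)) := by
    rw [← e, show x + 1 + 1 = x + 2 by ring]; ring
  rw [e', abs_mul, mul_assoc]
  refine mul_le_mul_of_nonneg_left ?_ (abs_nonneg _)
  refine (mvt1 (p - 1) c (by linarith) (by linarith)).trans ?_
  refine mul_le_mul_of_nonneg_left ?_ (abs_nonneg _)
  rw [show p - 1 - 1 = p - 2 by ring]
  exact rpow_le_rpow_of_nonpos hx h1.le (by linarith)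

theorem tele (e x : ℝ) (he : 0 < e) (hx : 0 < x) :
    e * (x + 1) ^ (-e - 1) ≤ x ^ (-e) - (x + 1) ^ (-e) := by
  obtain ⟨c, h1, h2, h⟩ := mvt_aux (fun y => y ^ (-e)) (fun y => (-e) * y ^ (-e - 1)) x hx
    (fun y hy => hasDerivAt_rpow_const (Or.inl hy.ne'))
  have : (x + 1) ^ (-e - 1) ≤ c ^ (-e - 1) :=
    rpow_le_rpow_of_nonpos (by linarith) h2.le (by linarith)
  nlinarith

theorem tail_range (e x : ℝ) (he : 0 < e) (hx : 0 < x) (n : ℕ) :
    ∑ m ∈ range n, (x + 1 + m) ^ (-e - 1) ≤ (x ^ (-e) - (x + n) ^ (-e)) / e := by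
  induction n with
  | zero => simp
  | succ n ih =>
    rw [sum_range_succ]
    have := tele e (x + n) he (by positivity)
    rw [le_div_iff₀ he] at ih ⊢
    push_cast
    rw [show x + 1 + n = x + n + 1 by ring, show x + (n + 1) = x + n + 1 by ring]
    nlinarith

theorem tail_range' (e x : ℝ) (he : 0 < e) (hx : 0 < x) (n : ℕ) :
    ∑ m ∈ range n, (x + 1 + m) ^ (-e - 1) ≤ x ^ (-e) / e := by
  refine (tail_range e x he hx n).trans ?_
  have : 0 ≤ (x + n) ^ (-e) := by positivity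
  gcongr
  linarith

theorem tail_summable (e x : ℝ) (he : 0 < e) (hx : 0 < x) :
    Summable fun m : ℕ => (x + 1 + m) ^ (-e - 1) :=
  summable_of_sum_range_le (fun _ => by positivity) (tail_range' e x he hx)

theorem tail_tsum (e x : ℝ) (he : 0 < e) (hx : 0 < x) :
    ∑' m : ℕ, (x + 1 + m) ^ (-e - 1) ≤ x ^ (-e) / e :=
  Real.tsum_le_of_sum_range_le (fun _ => by positivity) (tail_range' e x he hx)

/-- Summation by parts, twice. -/
theorem sbp (B c : ℕ → ℝ) (lam D : ℝ) (hB : Summable B) (hc : ∀ k, |c k| ≤ 1)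
    (hr : ∀ k, c (k + 2) - 2 * c (k + 1) + c k = -lam * c (k + 1))
    (g : ℕ → ℝ) (hg : Summable g) (hgD : ∑' m, g m ≤ D)
    (hd : ∀ m, |B m - 2 * B (m + 1) + B (m + 2)| ≤ g m) :
    |lam * ∑' m, B m * c (m + 1)| ≤ |B 0| * |c 0 - c 1| + |B 1 - B 0| + D := by
  have sm : ∀ i j : ℕ, Summable fun m => B (m + i) * c (m + j) := by
    intro i j
    refine Summable.of_norm_bounded ((summable_nat_add_iff i).2 hB.abs) fun m => ?_
    rw [Real.norm_eq_abs, abs_mul]
    exact mul_le_of_le_one_right (abs_nonneg _) (hc _)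
  have s02 : Summable fun m => B m * c (m + 2) := by simpa using sm 0 2
  have s01 : Summable fun m => B m * c (m + 1) := by simpa using sm 0 1
  have s00 : Summable fun m => B m * c m := by simpa using sm 0 0
  have e1 : ∑' m, B m * c (m + 1) = B 0 * c 1 + ∑' m, B (m + 1) * c (m + 2) := by
    rw [s01.tsum_eq_zero_add]
  have e0 : ∑' m, B m * c m = B 0 * c 0 + (B 1 * c 1 + ∑' m, B (m + 2) * c (m + 2)) := by
    rw [s00.tsum_eq_zero_add, (sm 1 1).tsum_eq_zero_add]
  have e2 : -lam * ∑' m, B m * c (m + 1) =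
      (∑' m, B m * c (m + 2)) - 2 * (∑' m, B m * c (m + 1)) + ∑' m, B m * c m := by
    rw [← tsum_mul_left, ← tsum_mul_left, ← s02.tsum_sub (s01.mul_left 2),
      ← (s02.sub (s01.mul_left 2)).tsum_add s00]
    refine tsum_congr fun m => ?_
    have := hr m
    linear_combination (-B m) * this
  have e3 : ∑' m, (B m - 2 * B (m + 1) + B (m + 2)) * c (m + 2) =
      (∑' m, B m * c (m + 2)) - 2 * (∑' m, B (m + 1) * c (m + 2)) +
        ∑' m, B (m + 2) * c (m + 2) := by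
    rw [← tsum_mul_left, ← s02.tsum_sub ((sm 1 2).mul_left 2),
      ← (s02.sub ((sm 1 2).mul_left 2)).tsum_add (sm 2 2)]
    refine tsum_congr fun m => ?_
    ring
  have b3 : |∑' m, (B m - 2 * B (m + 1) + B (m + 2)) * c (m + 2)| ≤ D := by
    refine le_trans ?_ hgD
    rw [← Real.norm_eq_abs]
    refine tsum_of_norm_bounded hg.hasSum fun m => ?_
    rw [Real.norm_eq_abs, abs_mul]
    exact (mul_le_of_le_one_right (abs_nonneg _) (hc _)).trans (hd m)
  have e4 : -(lam * ∑' m, B m * c (m + 1)) = B 0 * (c 0 - c 1) + (B 1 - B 0) * c 1 +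
      ∑' m, (B m - 2 * B (m + 1) + B (m + 2)) * c (m + 2) := by
    rw [e3]
    linear_combination e2 - 2 * e1 + e0
  rw [← abs_neg, e4]
  refine (abs_add_le _ _).trans (add_le_add ((abs_add_le _ _).trans (add_le_add ?_ ?_)) b3)
  · rw [abs_mul]
  · rw [abs_mul]; exact mul_le_of_le_one_right (abs_nonneg _) (hc _)

end Pool.Agent.H663Z.Eta
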