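import Pool.Agent.H445Z.CubSt
import Pool.Agent.H663Z.Eta.A

/-! Bounds for the coefficients and their differences. -/

namespace Pool.Agent.H663Z.Eta

open Finset Real Pool.Agent.H445Z.Cub

theorem dl_pos (a : ℕ) : 0 < dl a := by unfold dl; positivity

theorem dl_mul (a : ℕ) : dl a * 2 ^ a = 2 * π := by unfold dl; field_simp

theorem coef_nonneg (a k : ℕ) : 0 ≤ coef a k := by unfold coef; positivity

theorem coef_le_inv (a k : ℕ) : coef a k ≤ ((2 : ℝ) ^ a)⁻¹ := by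
  unfold coef
  rcases Nat.eq_zero_or_pos k with rfl | hk
  · simp
  have hd := dl_pos a
  have hk' : (0 : ℝ) < k := by exact_mod_cast hk
  rw [div_le_iff₀ (by positivity)]
  have := sin_sq_le_sq (x := k * dl a / 2)
  rw [← mul_assoc, inv_mul_cancel₀ (by positivity)]
  nlinarith

theorem coef_le_sq (a k : ℕ) (hk : 0 < k) : coef a k ≤ 2 ^ a * (k : ℝ) ^ (-2 : ℝ) := by
  unfold coef
  have hd := dl_pos a
  have hk' : (0 : ℝ) < k := by exact_mod_cast hk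
  have hN : (0 : ℝ) < 2 ^ a := by positivity
  rw [rpow_neg hk'.le, rpow_two, div_le_iff₀ (by positivity)]
  have h1 := sin_sq_le_one (k * dl a / 2)
  have h2 : (2 : ℝ) ^ a * ((k : ℝ) ^ 2)⁻¹ * (2 ^ a * (k * dl a) ^ 2) = (dl a * 2 ^ a) ^ 2 := by
    field_simp
  rw [h2, dl_mul]
  nlinarith [pi_gt_three]

theorem sumA_range (a : ℕ) (ρ : ℝ) (h0 : 0 ≤ ρ) (h1 : ρ ≤ 3 / 4) (n : ℕ) :
    ∑ k ∈ range n, coef a k * (k : ℝ) ^ ρ ≤ 6 * ((2 : ℝ) ^ a) ^ ρ := by
  have hN : (1 : ℝ) ≤ 2 ^ a := one_le_pow₀ (by norm_num)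
  set N : ℝ := 2 ^ a with hNdef
  have hP : 0 < N ^ ρ := by positivity
  have nn : ∀ k, 0 ≤ coef a k * (k : ℝ) ^ ρ := fun k => mul_nonneg (coef_nonneg a k) (by positivity)
  calc ∑ k ∈ range n, coef a k * (k : ℝ) ^ ρ
      ≤ ∑ k ∈ range (2 ^ a + 1 + n), coef a k * (k : ℝ) ^ ρ :=
        sum_le_sum_of_subset_of_nonneg (range_subset_range.2 (Nat.le_add_left _ _)) fun k _ _ => nn k
    _ = ∑ k ∈ range (2 ^ a + 1), coef a k * (k : ℝ) ^ ρ +
          ∑ m ∈ range n, coef a (2 ^ a + 1 + m) * ((2 ^ a + 1 + m : ℕ) : ℝ) ^ ρ :=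
        sum_range_add _ _ _
    _ ≤ 2 * N ^ ρ + 4 * N ^ ρ := add_le_add ?_ ?_
    _ = _ := by ring
  · calc ∑ k ∈ range (2 ^ a + 1), coef a k * (k : ℝ) ^ ρ
        ≤ ∑ k ∈ range (2 ^ a + 1), N⁻¹ * N ^ ρ := by
          refine sum_le_sum fun k hk => mul_le_mul (coef_le_inv a k) ?_ (by positivity)
            (by positivity)
          refine rpow_le_rpow (by positivity) ?_ h0
          have : k ≤ 2 ^ a := by have := mem_range.1 hk; omega
          rw [hNdef]; exact_mod_cast this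
      _ = (N + 1) * N⁻¹ * N ^ ρ := by
          rw [sum_const, card_range, nsmul_eq_mul]; push_cast; ring
      _ ≤ 2 * N ^ ρ := by
          refine mul_le_mul_of_nonneg_right ?_ hP.le
          rw [← div_eq_mul_inv, div_le_iff₀ (by linarith)]; linarith
  · calc ∑ m ∈ range n, coef a (2 ^ a + 1 + m) * ((2 ^ a + 1 + m : ℕ) : ℝ) ^ ρ
        ≤ ∑ m ∈ range n, N * (N + 1 + m) ^ (-(1 - ρ) - 1) := by
          refine sum_le_sum fun m _ => ?_
          have h := coef_le_sq a (2 ^ a + 1 + m) (by positivity)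
          have e : ((2 ^ a + 1 + m : ℕ) : ℝ) = N + 1 + m := by push_cast; rfl
          rw [e] at h ⊢
          have hp : 0 < N + 1 + m := by positivity
          calc _ ≤ N * (N + 1 + m) ^ (-2 : ℝ) * (N + 1 + m) ^ ρ :=
                mul_le_mul_of_nonneg_right h (by positivity)
            _ = _ := by rw [mul_assoc, ← rpow_add hp]; congr 2; ring
      _ = N * ∑ m ∈ range n, (N + 1 + m) ^ (-(1 - ρ) - 1) := by rw [mul_sum]
      _ ≤ N * (N ^ (-(1 - ρ)) / (1 - ρ)) :=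
          mul_le_mul_of_nonneg_left (tail_range' (1 - ρ) N (by linarith) (by linarith) n)
            (by linarith)
      _ = N ^ ρ / (1 - ρ) := by
          rw [show -(1 - ρ) = ρ - 1 by ring, rpow_sub_one (by linarith)]; field_simp
      _ ≤ 4 * N ^ ρ := by
          rw [div_le_iff₀ (by linarith)]; nlinarith

theorem sumA_summable (a : ℕ) (ρ : ℝ) (h0 : 0 ≤ ρ) (h1 : ρ ≤ 3 / 4) :
    Summable fun k : ℕ => coef a k * (k : ℝ) ^ ρ :=
  summable_of_sum_range_le (fun k => mul_nonneg (coef_nonneg a k) (by positivity))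
    (sumA_range a ρ h0 h1)

theorem sumA_tsum (a : ℕ) (ρ : ℝ) (h0 : 0 ≤ ρ) (h1 : ρ ≤ 3 / 4) :
    ∑' k : ℕ, coef a k * (k : ℝ) ^ ρ ≤ 6 * ((2 : ℝ) ^ a) ^ ρ :=
  Real.tsum_le_of_sum_range_le (fun k => mul_nonneg (coef_nonneg a k) (by positivity))
    (sumA_range a ρ h0 h1)

theorem s_le (d x : ℝ) : sin (x * d / 2) ^ 2 ≤ x ^ 2 * d ^ 2 / 4 := by
  have := sin_sq_le_sq (x := x * d / 2)
  nlinarith

theorem s_diff (d x : ℝ) (hd : 0 < d) (hx : 0 ≤ x) :
    |sin ((x + 1) * d / 2) ^ 2 - sin (x * d / 2) ^ 2| ≤ (2 * x + 1) * d ^ 2 / 4 := by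
  rw [sq_sub_sq, abs_mul]
  have h1 := abs_sin_sub_sin_le ((x + 1) * d / 2) (x * d / 2)
  have h2 : |sin ((x + 1) * d / 2) + sin (x * d / 2)| ≤ (2 * x + 1) * d / 2 := by
    refine (abs_add_le _ _).trans ?_
    have a1 := abs_sin_le_abs (x := (x + 1) * d / 2)
    have a2 := abs_sin_le_abs (x := x * d / 2)
    rw [abs_of_nonneg (a := (x + 1) * d / 2) (by positivity)] at a1
    rw [abs_of_nonneg (a := x * d / 2) (by positivity)] at a2
    linarith
  rw [show (x + 1) * d / 2 - x * d / 2 = d / 2 by ring, abs_of_pos (a := d / 2) (by positivity)]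
    at h1
  calc _ ≤ ((2 * x + 1) * d / 2) * (d / 2) := mul_le_mul h2 h1 (abs_nonneg _) (by positivity)
    _ = _ := by ring

theorem s_diff2 (d x : ℝ) :
    |sin (x * d / 2) ^ 2 - 2 * sin ((x + 1) * d / 2) ^ 2 + sin ((x + 2) * d / 2) ^ 2| ≤
      d ^ 2 / 2 := by
  have e0 : x * d / 2 = (x + 1) * d / 2 - d / 2 := by ring
  have e2 : (x + 2) * d / 2 = (x + 1) * d / 2 + d / 2 := by ring
  rw [e0, e2, sin_sub, sin_add]
  set A := (x + 1) * d / 2
  have h1 := sin_sq_add_cos_sq A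
  have h2 := sin_sq_add_cos_sq (d / 2)
  have h3 := sin_sq_le_sq (x := d / 2)
  have e : (sin A * cos (d / 2) - cos A * sin (d / 2)) ^ 2 - 2 * sin A ^ 2 +
      (sin A * cos (d / 2) + cos A * sin (d / 2)) ^ 2 =
      2 * sin (d / 2) ^ 2 * (cos A ^ 2 - sin A ^ 2) := by
    linear_combination (2 * sin A ^ 2) * h2
  rw [e, abs_mul, abs_of_nonneg (by positivity)]
  have h4 : |cos A ^ 2 - sin A ^ 2| ≤ 1 := by
    rw [abs_le]; constructor <;> nlinarith [sq_nonneg (sin A), sq_nonneg (cos A)]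
  calc _ ≤ 2 * sin (d / 2) ^ 2 * 1 := mul_le_mul_of_nonneg_left h4 (by positivity)
    _ ≤ _ := by nlinarith

/-- The real-variable profile of the coefficients. -/
noncomputable def phi (r d x : ℝ) : ℝ := x ^ (r - 2) * sin (x * d / 2) ^ 2

theorem pw (r x : ℝ) (hx : 0 < x) (n : ℕ) : x ^ (r - 4 + n) = x ^ (r - 4) * x ^ n := by
  rw [rpow_add hx, rpow_natCast]

theorem beta_diff (r x : ℝ) (h0 : 0 < r) (h1 : r ≤ 1 / 2) (hx : 0 < x) :
    |(x + 1) ^ (r - 2) - x ^ (r - 2)| ≤ 2 * (x ^ (r - 4) * x) := by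
  have h := mvt1 (r - 2) x hx (by linarith)
  have e := pw r x hx 1
  rw [show r - 4 + ((1 : ℕ) : ℝ) = r - 2 - 1 by push_cast; ring, pow_one] at e
  rw [e] at h
  refine h.trans (mul_le_mul_of_nonneg_right ?_ (by positivity))
  rw [abs_le]; constructor <;> linarith

theorem beta_diff2 (r x : ℝ) (h0 : 0 < r) (h1 : r ≤ 1 / 2) (hx : 0 < x) :
    |x ^ (r - 2) - 2 * (x + 1) ^ (r - 2) + (x + 2) ^ (r - 2)| ≤ 6 * x ^ (r - 4) := by
  have h := mvt2 (r - 2) x hx (by linarith)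
  rw [show r - 2 - 2 = r - 4 by ring] at h
  refine h.trans (mul_le_mul_of_nonneg_right ?_ (by positivity))
  have a1 : |r - 2| ≤ 2 := by rw [abs_le]; constructor <;> linarith
  have a2 : |r - 2 - 1| ≤ 3 := by rw [abs_le]; constructor <;> linarith
  nlinarith [abs_nonneg (r - 2), abs_nonneg (r - 2 - 1)]

theorem phi_diff (r d x : ℝ) (h0 : 0 < r) (h1 : r ≤ 1 / 2) (hd : 0 < d) (hx : 1 ≤ x) :
    |phi r d (x + 1) - phi r d x| ≤ 3 * d ^ 2 * x ^ (r - 1) := by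
  have hx0 : 0 < x := by linarith
  have e1 := pw r x hx0 3
  have e2 := pw r x hx0 2
  rw [show r - 4 + ((3 : ℕ) : ℝ) = r - 1 by push_cast; ring] at e1
  rw [show r - 4 + ((2 : ℕ) : ℝ) = r - 2 by push_cast; ring] at e2
  have b1 := beta_diff r x h0 h1 hx0
  have s1 := s_le d (x + 1)
  have s2 := s_diff d x hd hx0.le
  have hP : 0 < x ^ (r - 4) := by positivity
  have e : phi r d (x + 1) - phi r d x =
      ((x + 1) ^ (r - 2) - x ^ (r - 2)) * sin ((x + 1) * d / 2) ^ 2 +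
        x ^ (r - 2) * (sin ((x + 1) * d / 2) ^ 2 - sin (x * d / 2) ^ 2) := by
    unfold phi; ring
  rw [e]
  refine (abs_add_le _ _).trans ?_
  rw [abs_mul, abs_mul, abs_of_nonneg (sq_nonneg (sin ((x + 1) * d / 2))),
    abs_of_nonneg (rpow_nonneg hx0.le (r - 2))]
  have t1 : |(x + 1) ^ (r - 2) - x ^ (r - 2)| * sin ((x + 1) * d / 2) ^ 2 ≤
      2 * (x ^ (r - 4) * x) * ((2 * x) ^ 2 * d ^ 2 / 4) := by
    refine mul_le_mul b1 (s1.trans ?_) (sq_nonneg _) (by positivity)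
    gcongr; linarith
  have t2 : x ^ (r - 2) * |sin ((x + 1) * d / 2) ^ 2 - sin (x * d / 2) ^ 2| ≤
      x ^ (r - 2) * ((3 * x) * d ^ 2 / 4) := by
    refine mul_le_mul_of_nonneg_left (s2.trans ?_) (by positivity)
    gcongr; linarith
  have : 0 < x ^ (r - 4) * x ^ 3 * d ^ 2 := by positivity
  have t4 : 2 * (x ^ (r - 4) * x) * ((2 * x) ^ 2 * d ^ 2 / 4) + x ^ (r - 2) * ((3 * x) * d ^ 2 / 4) ≤
      3 * d ^ 2 * x ^ (r - 1) := by
    rw [e1, e2]; nlinarith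
  linarith

theorem phi_diff2 (r d x : ℝ) (h0 : 0 < r) (h1 : r ≤ 1 / 2) (hd : 0 < d) (hx : 1 ≤ x) :
    |phi r d x - 2 * phi r d (x + 1) + phi r d (x + 2)| ≤ 19 * d ^ 2 * x ^ (r - 2) := by
  have hx0 : 0 < x := by linarith
  have e2 := pw r x hx0 2
  rw [show r - 4 + ((2 : ℕ) : ℝ) = r - 2 by push_cast; ring] at e2
  have b1 := beta_diff r x h0 h1 hx0
  have b2 := beta_diff2 r x h0 h1 hx0
  have s1 := s_le d (x + 2)
  have s2 := s_diff d (x + 1) hd (by linarith)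
  rw [show x + 1 + 1 = x + 2 by ring] at s2
  have s3 := s_diff2 d x
  have hP : 0 < x ^ (r - 4) := by positivity
  have e : phi r d x - 2 * phi r d (x + 1) + phi r d (x + 2) =
      (x ^ (r - 2) - 2 * (x + 1) ^ (r - 2) + (x + 2) ^ (r - 2)) * sin ((x + 2) * d / 2) ^ 2 +
        2 * (((x + 1) ^ (r - 2) - x ^ (r - 2)) *
          (sin ((x + 2) * d / 2) ^ 2 - sin ((x + 1) * d / 2) ^ 2)) +
        x ^ (r - 2) * (sin (x * d / 2) ^ 2 - 2 * sin ((x + 1) * d / 2) ^ 2 +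
          sin ((x + 2) * d / 2) ^ 2) := by
    unfold phi; ring
  rw [e]
  refine (abs_add_le _ _).trans ((add_le_add (abs_add_le _ _) le_rfl).trans ?_)
  rw [abs_mul, abs_mul, abs_mul, abs_mul, abs_of_nonneg (sq_nonneg (sin ((x + 2) * d / 2))),
    abs_of_nonneg (rpow_nonneg hx0.le (r - 2)), abs_two]
  have t1 : |x ^ (r - 2) - 2 * (x + 1) ^ (r - 2) + (x + 2) ^ (r - 2)| *
      sin ((x + 2) * d / 2) ^ 2 ≤ 6 * x ^ (r - 4) * ((3 * x) ^ 2 * d ^ 2 / 4) := by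
    refine mul_le_mul b2 (s1.trans ?_) (sq_nonneg _) (by positivity)
    gcongr; linarith
  have t2 : |(x + 1) ^ (r - 2) - x ^ (r - 2)| *
      |sin ((x + 2) * d / 2) ^ 2 - sin ((x + 1) * d / 2) ^ 2| ≤
      2 * (x ^ (r - 4) * x) * ((5 * x) * d ^ 2 / 4) := by
    refine mul_le_mul b1 (s2.trans ?_) (abs_nonneg _) (by positivity)
    gcongr; linarith
  have t3 := mul_le_mul_of_nonneg_left s3 (rpow_nonneg hx0.le (r - 2))
  have : 0 < x ^ (r - 4) * x ^ 2 * d ^ 2 := by positivity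
  have t4 : 6 * x ^ (r - 4) * ((3 * x) ^ 2 * d ^ 2 / 4) +
      2 * (2 * (x ^ (r - 4) * x) * ((5 * x) * d ^ 2 / 4)) + x ^ (r - 2) * (d ^ 2 / 2) =
      19 * d ^ 2 * x ^ (r - 2) := by
    rw [e2]; ring
  linarith

theorem b_eq (r : ℝ) (a k : ℕ) (hk : 0 < k) :
    coef a k * (k : ℝ) ^ r = 4 / (2 ^ a * dl a ^ 2) * phi r (dl a) k := by
  have hk' : (0 : ℝ) < k := by exact_mod_cast hk
  have hd := dl_pos a
  unfold coef phi
  rw [rpow_sub hk', rpow_two]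
  field_simp

end Pool.Agent.H663Z.Eta
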