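import Pool.Agent.H663Z.Eta.B

/-! Size, decay and Hoelder bounds for `eta`. -/

namespace Pool.Agent.H663Z.Eta

open Finset Real Pool.Agent.H445Z.Cub

theorem b_le (r : ℝ) (a k : ℕ) (h0 : 0 < r) (y : ℝ) (hy : (k : ℝ) ≤ y) :
    coef a k * (k : ℝ) ^ r ≤ ((2 : ℝ) ^ a)⁻¹ * y ^ r :=
  mul_le_mul (coef_le_inv a k) (rpow_le_rpow (by positivity) hy h0.le) (by positivity)
    (by positivity)

theorem decay (r : ℝ) (h0 : 0 < r) (h1 : r ≤ 1 / 2) (a : ℕ) (x t θ : ℝ) (hx : 1 ≤ x)
    (ht : 1 ≤ |sin (t / 2)| * x) :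
    |∑' k : ℕ, coef a k * (k : ℝ) ^ r * cos (k * t + θ)| ≤
      52 * (((2 : ℝ) ^ a)⁻¹ * x ^ (1 + r)) := by
  have hx0 : 0 < x := by linarith
  have hd := dl_pos a
  have hN : (0 : ℝ) < 2 ^ a := by positivity
  set n : ℝ := ((2 : ℝ) ^ a)⁻¹ with hn
  have hn0 : 0 < n := by positivity
  set b : ℕ → ℝ := fun k => coef a k * (k : ℝ) ^ r with hb
  have hb0 : ∀ k, 0 ≤ b k := fun k => mul_nonneg (coef_nonneg a k) (by positivity)
  have hbs : Summable b := sumA_summable a r h0.le (by linarith)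
  have hs : Summable fun k : ℕ => b k * cos (k * t + θ) := by
    refine Summable.of_norm_bounded hbs fun k => ?_
    rw [Real.norm_eq_abs, abs_mul, abs_of_nonneg (hb0 k)]
    exact mul_le_of_le_one_right (hb0 k) (abs_cos_le_one _)
  set L : ℕ := ⌈x⌉₊ with hL
  have hL1 : x ≤ L := Nat.le_ceil x
  have hL2 : (L : ℝ) + 1 ≤ 3 * x := by
    have := Nat.ceil_lt_add_one hx0.le
    linarith
  have h3r : (3 * x) ^ r ≤ 3 * x ^ r := by
    rw [mul_rpow (by norm_num) hx0.le]
    refine mul_le_mul_of_nonneg_right ?_ (by positivity)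
    calc (3 : ℝ) ^ r ≤ 3 ^ (1 : ℝ) := rpow_le_rpow_of_exponent_le (by norm_num) (by linarith)
      _ = 3 := rpow_one _
  set q : ℝ := x ^ (r - 1) with hq
  have hq0 : 0 < q := by positivity
  have er : x ^ r = q * x := by rw [hq, rpow_sub_one hx0.ne']; field_simp
  have er1 : x ^ (1 + r) = q * x ^ 2 := by rw [add_comm, rpow_add_one hx0.ne', er]; ring
  change |∑' k : ℕ, b k * cos (k * t + θ)| ≤ _
  rw [← hs.sum_add_tsum_nat_add (L + 1)]
  have head : |∑ k ∈ range (L + 1), b k * cos (k * t + θ)| ≤ 9 * (n * (q * x ^ 2)) := by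
    refine (abs_sum_le_sum_abs _ _).trans ?_
    calc ∑ k ∈ range (L + 1), |b k * cos (k * t + θ)|
        ≤ ∑ k ∈ range (L + 1), n * (3 * x) ^ r := by
          refine sum_le_sum fun k hk => ?_
          rw [abs_mul, abs_of_nonneg (hb0 k)]
          refine (mul_le_of_le_one_right (hb0 k) (abs_cos_le_one _)).trans (b_le r a k h0 _ ?_)
          have : (k : ℝ) ≤ L := by exact_mod_cast Nat.lt_succ_iff.1 (mem_range.1 hk)
          linarith
      _ = ((L : ℝ) + 1) * (n * (3 * x) ^ r) := by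
          rw [sum_const, card_range, nsmul_eq_mul]; push_cast; ring
      _ ≤ (3 * x) * (n * (3 * x ^ r)) := by gcongr
      _ = _ := by rw [er]; ring
  have cst : 4 / (2 ^ a * dl a ^ 2) * dl a ^ 2 = 4 * n := by rw [hn]; field_simp
  have cpos : 0 < 4 / (2 ^ a * dl a ^ 2) := by positivity
  have bphi : ∀ m : ℕ, b (m + (L + 1)) = 4 / (2 ^ a * dl a ^ 2) * phi r (dl a) (L + 1 + m) := by
    intro m
    have := b_eq r a (m + (L + 1)) (by omega)
    rw [hb]; simp only; rw [this]; congr 2; push_cast; ring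
  have hLx : (L : ℝ) ^ (r - 1) ≤ q := rpow_le_rpow_of_nonpos hx0 hL1 (by linarith)
  have key := sbp (fun m => b (m + (L + 1))) (fun m => cos ((L + m) * t + θ))
    (4 * sin (t / 2) ^ 2) (152 * (n * q)) ((summable_nat_add_iff (L + 1)).2 hbs)
    (fun _ => abs_cos_le_one _)
    (fun k => by
      have e2 : ((L : ℝ) + ((k + 2 : ℕ) : ℝ)) * t + θ = ((L + ((k + 1 : ℕ) : ℝ)) * t + θ) + t := by
        push_cast; ring
      have e0 : ((L : ℝ) + (k : ℝ)) * t + θ = ((L + ((k + 1 : ℕ) : ℝ)) * t + θ) - t := by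
        push_cast; ring
      rw [e2, e0, cos_add _ t, cos_sub _ t]
      have : cos t = 1 - 2 * sin (t / 2) ^ 2 := by
        have := cos_two_mul (t / 2)
        have h2 := sin_sq_add_cos_sq (t / 2)
        rw [show 2 * (t / 2) = t by ring] at this
        linarith
      rw [this]; ring)
    (fun m => 76 * n * ((L : ℝ) + 1 + m) ^ (-(1 - r) - 1))
    ((tail_summable (1 - r) L (by linarith) (by linarith)).mul_left _)
    (by
      rw [tsum_mul_left]
      have := tail_tsum (1 - r) L (by linarith) (by linarith)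
      have h2 : (L : ℝ) ^ (-(1 - r)) / (1 - r) ≤ 2 * q := by
        rw [div_le_iff₀ (by linarith), show -(1 - r) = r - 1 by ring]
        nlinarith
      calc _ ≤ 76 * n * (2 * q) := mul_le_mul_of_nonneg_left (this.trans h2) (by positivity)
        _ = _ := by ring)
    (fun m => by
      rw [bphi, bphi, bphi]
      have hm : (0 : ℝ) ≤ m := by positivity
      have := phi_diff2 r (dl a) (L + 1 + m) h0 h1 hd (by linarith)
      push_cast
      rw [show (L : ℝ) + 1 + (m + 1) = L + 1 + m + 1 by ring,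
        show (L : ℝ) + 1 + (m + 2) = L + 1 + m + 2 by ring, show -(1 - r) - 1 = r - 2 by ring]
      set c := 4 / (2 ^ a * dl a ^ 2)
      set y := (L : ℝ) + 1 + m
      rw [show c * phi r (dl a) y - 2 * (c * phi r (dl a) (y + 1)) + c * phi r (dl a) (y + 2) =
        c * (phi r (dl a) y - 2 * phi r (dl a) (y + 1) + phi r (dl a) (y + 2)) by ring, abs_mul,
        abs_of_pos cpos]
      calc _ ≤ c * (19 * dl a ^ 2 * y ^ (r - 2)) := mul_le_mul_of_nonneg_left this cpos.le
        _ = 19 * (c * dl a ^ 2) * y ^ (r - 2) := by ring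
        _ = _ := by rw [cst]; ring)
  set σ := |sin (t / 2)| with hσ
  have hσ0 : 0 < σ := by
    rcases (abs_nonneg (sin (t / 2))).eq_or_lt with h | h
    · rw [hσ, ← h] at ht; norm_num at ht
    · exact h
  have k0 : |b (0 + (L + 1))| ≤ 3 * (n * (q * x)) := by
    rw [abs_of_nonneg (hb0 _)]
    refine (b_le r a _ h0 (3 * x) (by push_cast; linarith)).trans ?_
    calc _ ≤ n * (3 * x ^ r) := mul_le_mul_of_nonneg_left h3r hn0.le
      _ = _ := by rw [er]; ring
  have k1 : |cos ((L + ((0 : ℕ) : ℝ)) * t + θ) - cos ((L + ((1 : ℕ) : ℝ)) * t + θ)| ≤ 2 * σ := by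
    rw [cos_sub_cos, abs_mul, abs_mul]
    rw [show (((L : ℝ) + ((0 : ℕ) : ℝ)) * t + θ - ((L + ((1 : ℕ) : ℝ)) * t + θ)) / 2 = -(t / 2) by
      push_cast; ring, sin_neg, abs_neg, abs_neg, abs_two]
    refine mul_le_mul_of_nonneg_right ?_ hσ0.le
    exact mul_le_of_le_one_right (by norm_num) (abs_sin_le_one _)
  have k2 : |b (1 + (L + 1)) - b (0 + (L + 1))| ≤ 12 * (n * q) := by
    rw [bphi, bphi]
    have := phi_diff r (dl a) (L + 1) h0 h1 hd (by linarith)
    push_cast
    rw [add_zero, ← mul_sub, abs_mul, abs_of_pos cpos]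
    have h2 : ((L : ℝ) + 1) ^ (r - 1) ≤ q := rpow_le_rpow_of_nonpos hx0 (by linarith) (by linarith)
    calc _ ≤ 4 / (2 ^ a * dl a ^ 2) * (3 * dl a ^ 2 * q) := by
          refine mul_le_mul_of_nonneg_left (this.trans ?_) cpos.le
          gcongr
      _ = 3 * (4 / (2 ^ a * dl a ^ 2) * dl a ^ 2) * q := by ring
      _ = _ := by rw [cst]; ring
  have tl : ∑' m : ℕ, b (m + (L + 1)) * cos (((m + (L + 1) : ℕ) : ℝ) * t + θ) =
      ∑' m : ℕ, b (m + (L + 1)) * cos ((L + ((m + 1 : ℕ) : ℝ)) * t + θ) := by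
    refine tsum_congr fun m => ?_
    congr 3; push_cast; ring
  rw [tl]
  set T := ∑' m : ℕ, b (m + (L + 1)) * cos ((L + ((m + 1 : ℕ) : ℝ)) * t + θ)
  have k3 : 4 * σ ^ 2 * |T| ≤ 3 * (n * (q * x)) * (2 * σ) + 12 * (n * q) + 152 * (n * q) := by
    rw [abs_mul, abs_of_nonneg (by positivity), ← sq_abs] at key
    refine key.trans (add_le_add (add_le_add ?_ k2) le_rfl)
    exact mul_le_mul k0 k1 (abs_nonneg _) (by positivity)
  have tail : |T| ≤ 43 * (n * (q * x ^ 2)) := by
    have w : 0 < n * q := by positivity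
    have u1 : σ * x ≤ (σ * x) ^ 2 := by nlinarith
    have u2 : 1 ≤ (σ * x) ^ 2 := by nlinarith
    have u3 : 4 * σ ^ 2 * |T| ≤ 4 * σ ^ 2 * (43 * (n * (q * x ^ 2))) := by
      have v1 := mul_le_mul_of_nonneg_left u1 w.le
      have v2 := mul_le_mul_of_nonneg_left u2 w.le
      nlinarith
    exact le_of_mul_le_mul_left u3 (by positivity)
  rw [er1]
  refine (abs_add_le _ _).trans ?_
  linarith

theorem sin_lower (a : ℕ) (u : ℝ) (j : ℤ) (hu : 0 ≤ u) (hu' : u < dl a) (hj : 2 * |j| ≤ 2 ^ a)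
    (hj2 : 2 ≤ |j|) : |(j : ℝ)| / 2 ^ a ≤ |sin ((u - j * dl a) / 2)| := by
  have hd := dl_pos a
  have hm := dl_mul a
  have hN : (0 : ℝ) < 2 ^ a := by positivity
  have hj' : 2 * |(j : ℝ)| ≤ 2 ^ a := by exact_mod_cast hj
  have hj2' : 2 ≤ |(j : ℝ)| := by exact_mod_cast hj2
  set N : ℝ := 2 ^ a
  set d := dl a
  have hpi := pi_pos
  have main : ∀ y : ℝ, 0 ≤ y → y ≤ π / 2 → (|(j : ℝ)| - 1) * d / 2 ≤ y → |(j : ℝ)| / N ≤ sin y := by
    intro y h0 h1 h2
    refine le_trans ?_ (mul_le_sin h0 h1)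
    rw [div_le_iff₀ hN, div_mul_eq_mul_div, div_mul_eq_mul_div, le_div_iff₀ hpi]
    have : (|(j : ℝ)| - 1) * d / 2 * N ≤ y * N := mul_le_mul_of_nonneg_right h2 hN.le
    have e : (|(j : ℝ)| - 1) * d / 2 * N = (|(j : ℝ)| - 1) * π := by
      linear_combination ((|(j : ℝ)| - 1) / 2) * hm
    nlinarith
  have hJd : |(j : ℝ)| * d ≤ π := by
    have : |(j : ℝ)| * d * N ≤ π * N := by
      have e : |(j : ℝ)| * d * N = 2 * |(j : ℝ)| * π := by linear_combination |(j : ℝ)| * hm
      rw [e]; nlinarith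
    exact le_of_mul_le_mul_right this hN
  rcases le_total 0 (j : ℝ) with h | h
  · rw [abs_of_nonneg h] at *
    rw [show (u - j * d) / 2 = -((j * d - u) / 2) by ring, sin_neg, abs_neg]
    refine (main _ ?_ ?_ ?_).trans (le_abs_self _) <;> nlinarith
  · rw [abs_of_nonpos h] at *
    rcases le_total ((u - j * d) / 2) (π / 2) with h' | h'
    · refine (main _ ?_ h' ?_).trans (le_abs_self _) <;> nlinarith
    · rw [← sin_pi_sub]
      refine (main _ ?_ ?_ ?_).trans (le_abs_self _) <;> nlinarith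

theorem cos_holder (u v : ℝ) : |cos u - cos v| ≤ 2 * |u - v| ^ (1 / 4 : ℝ) := by
  rcases le_total |u - v| 1 with h | h
  · have h1 := abs_cos_sub_cos_le u v
    have h2 : |u - v| ≤ |u - v| ^ (1 / 4 : ℝ) := by
      rcases (abs_nonneg (u - v)).eq_or_lt with e | e
      · rw [← e]; positivity
      · calc |u - v| = |u - v| ^ (1 : ℝ) := (rpow_one _).symm
          _ ≤ _ := rpow_le_rpow_of_exponent_ge e h (by norm_num)
    linarith [abs_nonneg (u - v)]
  · have h2 : 1 ≤ |u - v| ^ (1 / 4 : ℝ) := one_le_rpow h (by norm_num)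
    have := abs_sub (cos u) (cos v)
    linarith [abs_cos_le_one u, abs_cos_le_one v]

theorem thm_etaBound : S_etaBound := by
  intro r h0 h1
  refine ⟨420, by norm_num, fun a => ?_⟩
  have hN : (1 : ℝ) ≤ 2 ^ a := one_le_pow₀ (by norm_num)
  have hNr : (2 : ℝ) ^ (r * a) = ((2 : ℝ) ^ a) ^ r := by
    rw [mul_comm, rpow_mul (by norm_num), rpow_natCast]
  have hd := dl_pos a
  have hb0 : ∀ (ρ : ℝ) (k : ℕ), 0 ≤ coef a k * (k : ℝ) ^ ρ := fun ρ k =>
    mul_nonneg (coef_nonneg a k) (by positivity)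
  have hbs := sumA_summable a r h0.le (by linarith)
  have hP1 : 1 ≤ ((2 : ℝ) ^ a) ^ r := one_le_rpow hN h0.le
  rw [hNr]
  constructor
  · intro u j hu hu' hj
    have hJ : (0 : ℝ) ≤ |(j : ℝ)| := abs_nonneg _
    have four : ∀ y : ℝ, 0 < y → (2 * y) ^ (-1 - r) ≥ y ^ (-1 - r) / 4 := by
      intro y hy
      rw [mul_rpow (by norm_num) hy.le]
      have : (2 : ℝ) ^ (-2 : ℝ) ≤ 2 ^ (-1 - r) :=
        rpow_le_rpow_of_exponent_le (by norm_num) (by linarith)
      rw [rpow_neg (by norm_num), rpow_two] at this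
      have hp : 0 < y ^ (-1 - r) := by positivity
      nlinarith
    unfold eta
    rcases lt_or_ge |j| 2 with hj2 | hj2
    · have hj1 : |(j : ℝ)| ≤ 1 := by exact_mod_cast Int.lt_add_one_iff.1 hj2
      have w : (1 : ℝ) / 4 ≤ (1 + |(j : ℝ)|) ^ (-1 - r) := by
        have := four 1 one_pos
        rw [one_rpow] at this
        exact this.le.trans (rpow_le_rpow_of_nonpos (by positivity) (by linarith) (by linarith))
      have s : |∑' k : ℕ, coef a k * (k : ℝ) ^ r * cos (k * (u - j * dl a) + r * π / 2)| ≤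
          6 * ((2 : ℝ) ^ a) ^ r := by
        refine le_trans ?_ (sumA_tsum a r h0.le (by linarith))
        rw [← Real.norm_eq_abs]
        refine tsum_of_norm_bounded hbs.hasSum fun k => ?_
        rw [Real.norm_eq_abs, abs_mul, abs_of_nonneg (hb0 r k)]
        exact mul_le_of_le_one_right (hb0 r k) (abs_cos_le_one _)
      have i : ((2 : ℝ) ^ a)⁻¹ ≤ 1 := inv_le_one_of_one_le₀ hN
      refine (abs_add_le _ _).trans ?_
      rw [abs_mul, abs_two, abs_of_nonneg (by positivity)]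
      nlinarith
    · have hj2' : 2 ≤ |(j : ℝ)| := by exact_mod_cast hj2
      have hj' : 2 * |(j : ℝ)| ≤ 2 ^ a := by exact_mod_cast hj
      have hs := sin_lower a u j hu hu' hj hj2
      set J := |(j : ℝ)|
      set N : ℝ := 2 ^ a
      have hx : 1 ≤ N / J := by rw [le_div_iff₀ (by linarith)]; linarith
      have s := decay r h0 h1 a (N / J) (u - j * dl a) (r * π / 2) hx (by
        calc (1 : ℝ) = J / N * (N / J) := by field_simp
          _ ≤ _ := mul_le_mul_of_nonneg_right hs (by positivity))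
      have e : N⁻¹ * (N / J) ^ (1 + r) = N ^ r * J ^ (-1 - r) := by
        rw [div_rpow (by linarith) hJ, show -1 - r = -(1 + r) by ring, rpow_neg hJ,
          add_comm 1 r, rpow_add_one (by linarith : N ≠ 0)]
        field_simp
      have i : N⁻¹ ≤ N⁻¹ * (N / J) ^ (1 + r) :=
        le_mul_of_one_le_right (by positivity) (one_le_rpow hx (by linarith))
      have w : J ^ (-1 - r) / 4 ≤ (1 + J) ^ (-1 - r) :=
        (four J (by linarith)).le.trans
          (rpow_le_rpow_of_nonpos (by positivity) (by linarith) (by linarith))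
      refine (abs_add_le _ _).trans ?_
      rw [abs_mul, abs_two, abs_of_nonneg (by positivity)]
      change |_| ≤ 52 * (N⁻¹ * (N / J) ^ (1 + r)) at s
      rw [e] at s i
      have := mul_le_mul_of_nonneg_left w (by positivity : 0 ≤ N ^ r)
      nlinarith
  · intro t t'
    unfold eta
    have sm : ∀ y : ℝ, Summable fun k : ℕ => coef a k * (k : ℝ) ^ r * cos (k * y + r * π / 2) := by
      intro y
      refine Summable.of_norm_bounded hbs fun k => ?_
      rw [Real.norm_eq_abs, abs_mul, abs_of_nonneg (hb0 r k)]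
      exact mul_le_of_le_one_right (hb0 r k) (abs_cos_le_one _)
    rw [add_sub_add_left_eq_sub, ← mul_sub, ← (sm t).tsum_sub (sm t'), abs_mul, abs_two]
    have hs2 := sumA_summable a (r + 1 / 4) (by linarith) (by linarith)
    have ht2 := sumA_tsum a (r + 1 / 4) (by linarith) (by linarith)
    set h := |t - t'| ^ (1 / 4 : ℝ) with hh
    have hh0 : 0 ≤ h := by positivity
    have s : |∑' k : ℕ, (coef a k * (k : ℝ) ^ r * cos (k * t + r * π / 2) -
        coef a k * (k : ℝ) ^ r * cos (k * t' + r * π / 2))| ≤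
        2 * h * (6 * ((2 : ℝ) ^ a) ^ (r + 1 / 4)) := by
      refine le_trans ?_ (mul_le_mul_of_nonneg_left ht2 (by positivity))
      rw [← Real.norm_eq_abs]
      refine tsum_of_norm_bounded (hs2.hasSum.mul_left _) fun k => ?_
      rw [Real.norm_eq_abs, ← mul_sub, abs_mul, abs_of_nonneg (hb0 r k)]
      have c := cos_holder (k * t + r * π / 2) (k * t' + r * π / 2)
      rw [show k * t + r * π / 2 - (k * t' + r * π / 2) = k * (t - t') by ring, abs_mul,
        Nat.abs_cast, mul_rpow (Nat.cast_nonneg k) (abs_nonneg _)] at c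
      refine (mul_le_mul_of_nonneg_left c (hb0 r k)).trans (le_of_eq ?_)
      rw [rpow_add' (Nat.cast_nonneg k) (by linarith)]
      ring
    have e1 : ((2 : ℝ) ^ a) ^ (r + 1 / 4) = ((2 : ℝ) ^ a) ^ r * ((2 : ℝ) ^ a) ^ (1 / 4 : ℝ) :=
      rpow_add (by positivity) _ _
    have e2 : h * ((2 : ℝ) ^ a) ^ (1 / 4 : ℝ) ≤ 16 * (|t - t'| / dl a) ^ (1 / 4 : ℝ) := by
      rw [hh, ← mul_rpow (abs_nonneg _) (by positivity)]
      have l : |t - t'| * 2 ^ a ≤ 16 * (|t - t'| / dl a) := by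
        rw [← mul_div_assoc, le_div_iff₀ hd, mul_assoc, mul_comm _ (dl a), dl_mul]
        nlinarith [pi_lt_four, abs_nonneg (t - t')]
      refine (rpow_le_rpow (by positivity) l (by norm_num)).trans ?_
      rw [mul_rpow (by norm_num) (by positivity)]
      refine mul_le_mul_of_nonneg_right ?_ (by positivity)
      calc (16 : ℝ) ^ (1 / 4 : ℝ) ≤ 16 ^ (1 : ℝ) :=
            rpow_le_rpow_of_exponent_le (by norm_num) (by norm_num)
        _ = 16 := rpow_one _
    rw [e1] at s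
    have := mul_le_mul_of_nonneg_left e2 (by positivity : 0 ≤ ((2 : ℝ) ^ a) ^ r)
    have hz : 0 ≤ ((2 : ℝ) ^ a) ^ r * (|t - t'| / dl a) ^ (1 / 4 : ℝ) := by positivity
    nlinarith

end Pool.Agent.H663Z.Eta
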